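import Pool.Agent.R409.RH.Dir

/-!
# The law at an arbitrary point for `F / ζ^r`, `log F` a Dirichlet series over the prime powers
-/

set_option autoImplicit false

namespace Pool.Agent.R409.RI

open Complex MeasureTheory Filter Topology Set
open Pool.Agent.W189.ML Pool.Agent.W189.LC Pool.Agent.W187.UR Pool.Agent.R409.RC Pool.Agent.R409.RF
open Pool.Agent.R409.RH

/-- the finite sum as a sum over the prime powers -/
theorem gsx_pairs {c : Nat.Primes × ℕ → ℂ} {t : Nat.Primes → ℕ → ℂ} (θ γ T : ℝ)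
    (ht : ∀ p k, t p (k + 1) = c (p, k) * exp ((γ * (fr qP (p, k) / T) : ℝ) * I) *
      (om (fr qP (p, k) / T) : ℂ)) :
    gsx (fr qP) c θ γ T =
      ∑ᶠ x ∈ {x : Nat.Primes × ℕ | 1 ≤ x.2 ∧ ((x.1 : ℕ) : ℝ) ^ x.2 ≤ Real.exp (Real.exp (θ * T))},
        t x.1 x.2 := by
  have E : XD (0 : ℝ) qP (fun (_ : Nat.Primes) (_ : Fin 0) => (0 : ℂ)) :=
    { two_le := two_le_qP
      sum := fun σ hσ => sum_qP hσ
      norm_le := fun v j => j.elim0 }
  have hset : {x : Nat.Primes × ℕ | 1 ≤ x.2 ∧ ((x.1 : ℕ) : ℝ) ^ x.2 ≤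
      Real.exp (Real.exp (θ * T))} =
      (fun x : Nat.Primes × ℕ => (x.1, x.2 + 1)) '' {x | fr qP x ≤ Real.exp (θ * T)} := by
    ext ⟨v, k⟩
    simp only [Set.mem_ofPred_eq, Set.mem_image, Prod.mk.injEq, Prod.exists]
    have hlog : ∀ k : ℕ, ((v : ℕ) : ℝ) ^ k ≤ Real.exp (Real.exp (θ * T)) ↔
        (k : ℝ) * Real.log (qP v) ≤ Real.exp (θ * T) := by
      intro k
      have hp : (0 : ℝ) < ((v : ℕ) : ℝ) ^ k := pow_pos (E.q_pos v) k
      rw [← Real.log_le_iff_le_exp hp, Real.log_pow]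
      rfl
    constructor
    · rintro ⟨h1, h2⟩
      refine ⟨v, k - 1, ?_, rfl, by omega⟩
      unfold fr
      simp only
      have : ((k - 1 : ℕ) : ℝ) + 1 = k := by
        rw [Nat.cast_sub h1]
        push_cast
        ring
      rw [this]
      exact (hlog k).1 h2
    · rintro ⟨v', k', h1, rfl, rfl⟩
      refine ⟨by omega, (hlog _).2 ?_⟩
      push_cast
      exact h1
  rw [hset, finsum_mem_image]
  · have h1 : ∀ x : Nat.Primes × ℕ, t (x.1, x.2 + 1).1 (x.1, x.2 + 1).2 =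
        c x * exp ((γ * (fr qP x / T) : ℝ) * I) * (om (fr qP x / T) : ℂ) := by
      rintro ⟨p, k⟩
      exact ht p k
    simp only [h1]
    unfold gsx
    rw [tsum_eq_finsum]
    · refine finsum_congr fun x => ?_
      rw [Set.mem_ofPred_eq]
      by_cases hx : fr qP x ≤ Real.exp (θ * T)
      · rw [if_pos hx, finsum_eq_if, if_pos hx]
      · rw [if_neg hx, finsum_eq_if, if_neg hx]
    · refine (E.finite_fr (Real.exp (θ * T))).subset fun x hx => ?_
      rw [Function.mem_support] at hx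
      show fr qP x ≤ Real.exp (θ * T)
      by_contra h
      rw [if_neg h] at hx
      exact hx rfl
  · rintro ⟨v, k⟩ _ ⟨v', k'⟩ _ h
    simp only [Prod.mk.injEq] at h ⊢
    exact ⟨h.1, by omega⟩

variable {b : ℕ → ℂ} {F : ℂ → ℂ}

/-- the coefficients of `log F` shifted to `s₀` -/
noncomputable def cb (b : ℕ → ℂ) (s₀ : ℂ) (x : Nat.Primes × ℕ) : ℂ :=
  b ((x.1 : ℕ) ^ (x.2 + 1)) * (((x.1 : ℕ) : ℂ) ^ (-s₀)) ^ (x.2 + 1)

/-- the coefficients of `log ζ` shifted to `s₀` -/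
noncomputable def cz (s₀ : ℂ) (x : Nat.Primes × ℕ) : ℂ :=
  1 / ((x.2 : ℂ) + 1) * (((x.1 : ℕ) : ℂ) ^ (-s₀)) ^ (x.2 + 1)

theorem nat_pow_cpow (p k : ℕ) (s : ℂ) : ((p ^ k : ℕ) : ℂ) ^ s = ((p : ℂ) ^ s) ^ k := by
  induction k with
  | zero => simp
  | succ k ih =>
    rw [pow_succ, Nat.cast_mul, Complex.natCast_mul_natCast_cpow, ih, pow_succ]

theorem cb_exp (b : ℕ → ℂ) (s₀ w : ℂ) (x : Nat.Primes × ℕ) :
    cb b s₀ x * exp (-(w * fr qP x)) =
      LSeries.term b (s₀ + w) (Nat.Primes.prodNatEquiv x) := by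
  obtain ⟨p, k⟩ := x
  have hp : (0 : ℝ) < ((p : ℕ) : ℝ) := by exact_mod_cast p.2.pos
  have hpc : ((p : ℕ) : ℂ) ≠ 0 := by exact_mod_cast p.2.pos.ne'
  rw [Nat.Primes.coe_prodNatEquiv_apply, LSeries.term_of_ne_zero (pow_pos p.2.pos _).ne',
    nat_pow_cpow, div_eq_mul_inv, ← inv_pow, ← Complex.cpow_neg]
  unfold cb
  simp only
  have h1 : exp (-(w * fr qP (p, k))) = (((p : ℕ) : ℂ) ^ (-w)) ^ (k + 1) := by
    rw [Complex.cpow_def_of_ne_zero hpc, ← Complex.exp_nat_mul]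
    congr 1
    unfold fr qP
    rw [← Complex.natCast_log]
    push_cast
    ring
  rw [h1, mul_assoc, ← mul_pow, ← Complex.cpow_add _ _ hpc]
  congr 3
  ring

theorem sum_cb (hb : ∀ s : ℂ, 1 < s.re → LSeriesSummable b s) (s₀ : ℂ) {σ : ℝ}
    (hσ : 1 - s₀.re < σ) :
    Summable fun x : Nat.Primes × ℕ => ‖cb b s₀ x‖ * Real.exp (-(σ * fr qP x)) := by
  have h1 := (hb (s₀ + σ) (by
    rw [Complex.add_re, Complex.ofReal_re]
    linarith)).norm
  have h2 := h1.comp_injective (i := fun x : Nat.Primes × ℕ => (Nat.Primes.prodNatEquiv x : ℕ))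
    (Subtype.val_injective.comp Nat.Primes.prodNatEquiv.injective)
  refine h2.congr fun x => ?_
  simp only [Function.comp_apply]
  rw [← cb_exp, term_norm, Complex.ofReal_re]

theorem serx_cb (hb : ∀ s : ℂ, 1 < s.re → LSeriesSummable b s)
    (hsupp : ∀ n, b n ≠ 0 → IsPrimePow n) (s₀ : ℂ) (w : ℂ) :
    serx (fr qP) (cb b s₀) w = LSeries b (s₀ + w) := by
  unfold serx LSeries
  simp only [cb_exp]
  rw [Nat.Primes.prodNatEquiv.tsum_eq (fun n : {n : ℕ // IsPrimePow n} =>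
    LSeries.term b (s₀ + w) n)]
  refine tsum_subtype_eq_of_support_subset (f := LSeries.term b (s₀ + w))
    (s := {n | IsPrimePow n}) ?_
  intro n hn
  rw [Function.mem_support] at hn
  refine hsupp n fun h => hn ?_
  rcases Nat.eq_zero_or_pos n with rfl | h0
  · exact LSeries.term_zero _ _
  · rw [LSeries.term_of_ne_zero h0.ne', h, zero_div]

/-- the zeta function -/
theorem xd_one : XD (0 : ℝ) qP (fun (_ : Nat.Primes) (_ : Fin 1) => (1 : ℂ)) where
  two_le := two_le_qP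
  sum := fun σ hσ => sum_qP hσ
  norm_le := fun p _ => by
    rw [zero_div, Real.rpow_zero, norm_one]

theorem cz_eq (s₀ : ℂ) (x : Nat.Primes × ℕ) :
    cP (shx s₀ qP fun (_ : Nat.Primes) (_ : Fin 1) => (1 : ℂ)) x = cz s₀ x := by
  unfold cP shx cz qP
  simp only [Finset.univ_unique, Finset.sum_singleton, one_mul]
  push_cast
  ring

theorem sum_cz (s₀ : ℂ) {σ : ℝ} (hσ : 1 - s₀.re < σ) :
    Summable fun x : Nat.Primes × ℕ => ‖cz s₀ x‖ * Real.exp (-(σ * fr qP x)) := by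
  have h1 := xd_one.summable s₀ (σ := σ) (by linarith)
  simpa only [cz_eq] using h1

theorem serx_cz (s₀ : ℂ) {w : ℂ} (hw : 1 - s₀.re < w.re) :
    exp (serx (fr qP) (cz s₀) w) = riemannZeta (s₀ + w) := by
  have h1 := (xd_one.hasProd s₀ (z := w) (by linarith)).tprod_eq
  have h2 : (cP (shx s₀ qP fun (_ : Nat.Primes) (_ : Fin 1) => (1 : ℂ))) = cz s₀ := by
    funext x
    exact cz_eq s₀ x
  rw [h2] at h1
  rw [← h1, ← riemannZeta_eulerProduct_tprod (by
    rw [Complex.add_re]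
    linarith)]
  refine tprod_congr fun p => ?_
  simp [qP]

/-- the term of the finite sum for `F / ζ^r` -/
noncomputable def qterm (b : ℕ → ℂ) (r : ℕ) (s₀ : ℂ) (γ T : ℝ) (p : Nat.Primes) (k : ℕ) : ℂ :=
  (b ((p : ℕ) ^ k) - r / k) * (((p : ℕ) : ℂ) ^ (-s₀)) ^ k *
    Pool.Agent.W187.S2.kk γ (k * Real.log (p : ℕ) / T)

theorem gx_quot (hmer : ∀ z, MeromorphicAt F z)
    (hb : ∀ s : ℂ, 1 < s.re → LSeriesSummable b s)
    (hF : ∀ s : ℂ, 1 < s.re → F s = exp (LSeries b s))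
    (hsupp : ∀ n, b n ≠ 0 → IsPrimePow n) (r : ℕ) (s₀ : ℂ) :
    GX (1 - s₀.re) (fr qP) (fun x => cb b s₀ x - r * cz s₀ x)
      (fun w => F (s₀ + w) / riemannZeta (s₀ + w) ^ r) where
  lam_nonneg := xd_one.fr_nonneg
  sum := fun σ hσ => by
    have h1 := (sum_cb hb s₀ hσ).add ((sum_cz s₀ hσ).mul_left (r : ℝ))
    refine Summable.of_nonneg_of_le (fun x => by positivity) (fun x => ?_) h1
    have h2 : ‖cb b s₀ x - r * cz s₀ x‖ ≤ ‖cb b s₀ x‖ + r * ‖cz s₀ x‖ := by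
      refine (norm_sub_le _ _).trans ?_
      rw [norm_mul, Complex.norm_natCast]
    have h3 : 0 ≤ Real.exp (-(σ * fr qP x)) := (Real.exp_pos _).le
    calc _ ≤ (‖cb b s₀ x‖ + r * ‖cz s₀ x‖) * Real.exp (-(σ * fr qP x)) :=
          mul_le_mul_of_nonneg_right h2 h3
      _ = _ := by ring
  mero := fun x _ _ => by
    have h1 : MeromorphicAt (fun s => F s / riemannZeta s ^ r) (s₀ + x) := by
      refine (hmer _).div (MeromorphicAt.pow ?_ r)
      have h1 := mero_LFunction (1 : DirichletCharacter ℂ 1) (s₀ + x)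
      rwa [DirichletCharacter.LFunction_modOne_eq] at h1
    exact h1.comp_analyticAt (g := fun w : ℂ => s₀ + w) (by fun_prop)
  eq := fun w hw => by
    have hre : 1 < (s₀ + w).re := by
      rw [Complex.add_re]
      linarith
    have hsb : Summable fun x : Nat.Primes × ℕ => cb b s₀ x * exp (-(w * fr qP x)) := by
      refine Summable.of_norm_bounded (sum_cb hb s₀ hw) fun x => ?_
      rw [term_norm]
    have hsz : Summable fun x : Nat.Primes × ℕ => cz s₀ x * exp (-(w * fr qP x)) := by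
      refine Summable.of_norm_bounded (sum_cz s₀ hw) fun x => ?_
      rw [term_norm]
    have h1 : serx (fr qP) (fun x => cb b s₀ x - r * cz s₀ x) w =
        serx (fr qP) (cb b s₀) w - r * serx (fr qP) (cz s₀) w := by
      unfold serx
      rw [← tsum_mul_left, ← hsb.tsum_sub (hsz.mul_left _)]
      refine tsum_congr fun x => ?_
      ring
    rw [h1, Complex.exp_sub, Complex.exp_nat_mul, serx_cz s₀ hw, serx_cb hb hsupp, ← hF _ hre]

/-- **the law for `F / ζ^r` at an arbitrary point** -/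
theorem law_quot (hmer : ∀ z, MeromorphicAt F z)
    (hb : ∀ s : ℂ, 1 < s.re → LSeriesSummable b s)
    (hF : ∀ s : ℂ, 1 < s.re → F s = exp (LSeries b s))
    (hsupp : ∀ n, b n ≠ 0 → IsPrimePow n) (r : ℕ) (s₀ : ℂ) :
    ∃ (m : ℤ) (r₀ : ℂ), meromorphicOrderAt (fun s => F s / riemannZeta s ^ r) s₀ = m ∧
      exp r₀ = meromorphicTrailingCoeffAt (fun s => F s / riemannZeta s ^ r) s₀ ∧
      ∀ γ θ : ℝ, Real.pi / 2 < γ → 1 - s₀.re < θ → 0 < θ →
        Law (fun T => ∑ᶠ x ∈ {x : Nat.Primes × ℕ | 1 ≤ x.2 ∧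
          ((x.1 : ℕ) : ℝ) ^ x.2 ≤ Real.exp (Real.exp (θ * T))}, qterm b r s₀ γ T x.1 x.2) m r₀
          (Lam γ) := by
  obtain ⟨m, r₀, h0, hm, hr, hlaw⟩ := (gx_quot hmer hb hF hsupp r s₀).law
  have e1 := order_shift' (fun s => F s / riemannZeta s ^ r) s₀ 0
  have e2 := coeff_shift' (fun s => F s / riemannZeta s ^ r) s₀
  rw [add_zero] at e1
  rw [e1] at hm
  rw [e2] at hr
  refine ⟨m, r₀, hm, hr, fun γ θ hγ hθ hθ0 => ?_⟩
  have h1 := hlaw γ θ hγ hθ hθ0
  have h2 : gsx (fr qP) (fun x => cb b s₀ x - r * cz s₀ x) θ γ = fun T =>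
      ∑ᶠ x ∈ {x : Nat.Primes × ℕ | 1 ≤ x.2 ∧ ((x.1 : ℕ) : ℝ) ^ x.2 ≤
        Real.exp (Real.exp (θ * T))}, qterm b r s₀ γ T x.1 x.2 := by
    funext T
    refine gsx_pairs θ γ T fun p k => ?_
    unfold qterm cb cz fr Pool.Agent.W187.S2.kk qP
    push_cast
    ring
  rw [h2] at h1
  exact h1

end Pool.Agent.R409.RI
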